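import Pool.Agent.H66.IP.TC

/-!
Row MSB of the board ipf_modules: the distributions of the contents of a block.
-/

set_option autoImplicit false

namespace Pool.Agent.H37.IP

open Finset Pool.Agent.H6.NB Pool.Agent.H70.OQ Pool.Agent.H70.EH Pool.Agent.H70.EI Pool.Agent.H78.XQ
open Pool.Agent.H66.IP
open Pool.Agent.H75.OM (BPos)

theorem pf_MSB (hMAS : Pool.Agent.H78.XQ.T_MAS) (hSPF : T_SPF) (hBFG : T_BFG) : T_MSB := by
  classical
  intro V p
  obtain ⟨-, hscl, hSz, -⟩ := hSPF V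
  have h20 := (hscl p).1
  have hS := hSz p
  obtain ⟨m0nn, m0sum, hmB⟩ := hMAS (qs (sp V p)) (sp V p).length (rns (sp V p)) (wln (sp V p))
  refine ⟨fun c => m0nn c, m0sum, fun b => ⟨fun c => (hmB b).1 c, (hmB b).2, ?_⟩⟩
  have h1 := hBFG _ _ _ _ _ hS 0 b (fun _ => 1) (by omega)
    (fun P u h => ⟨Tr.lf true (fun _ => none), by simp [Tr.cc], by simp [Tr.dp],
      by simp [Tr.wd], fun y => by simp [Tr.ev, Pool.Agent.H66.IP.lv]⟩)
    (fun P => ⟨Tr.lf true (fun _ => none), by simp [Tr.wd], fun y => by simp [Tr.ev, Pool.Agent.H66.IP.lv]⟩)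
  simp only [mul_one] at h1
  rw [m0sum] at h1
  exact h1

end Pool.Agent.H37.IP
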